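import Pool.Agent.Helper52.OWN.Star

/-!
# MP_0bd3a7_an: in every dimension `n ≥ 2` the equivalence of Q1 fails for `A = I`
-/

set_option autoImplicit false

open Metric Set
open Pool.Agent.Helper64.SP

namespace Pool.Agent.Results.MP_0bd3a7_an.EveryDimension

/-- `ℂⁿ` with the Euclidean norm. -/
abbrev E (n : ℕ) : Type := EuclideanSpace ℂ (Fin n)

/-- The linear operators on `ℂⁿ`. -/
abbrev Op (n : ℕ) : Type := E n →L[ℂ] E n

/-- The identity operator. -/
noncomputable def Id (n : ℕ) : Op n := ContinuousLinearMap.id ℂ (E n)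

/-- The open unit ball of `ℂⁿ`. -/
abbrev B (n : ℕ) : Set (E n) := ball 0 1

/-- `Re ⟨w, z⟩ = Re ∑ j, w j * conj (z j)`. -/
noncomputable def re {n : ℕ} (w z : E n) : ℝ := (inner ℂ z w).re

/-- The derivative. -/
noncomputable def D {n : ℕ} (f : E n → E n) (z : E n) : Op n := fderiv ℂ f z

/-- The value of an operator at a vector. -/
noncomputable def ap {n : ℕ} (A : Op n) (z : E n) : E n := A z

/-- `k₊(A)`, the largest real part of a spectral value. -/
noncomputable def kPlus {n : ℕ} (A : Op n) : ℝ := sSup (Complex.re '' spectrum ℂ A)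

/-- `m(A)`, the minimum of `Re ⟨A z, z⟩` on the unit sphere. -/
noncomputable def mMin {n : ℕ} (A : Op n) : ℝ := sInf ((fun z : E n => re (ap A z) z) '' sphere 0 1)

/-- The operator `exp (-t A)`. -/
noncomputable def ex {n : ℕ} (t : ℝ) (A : Op n) : Op n := NormedSpace.exp (-(t : ℂ) • A)

/-- The derivative at the point is invertible. -/
def Inv {n : ℕ} (f : E n → E n) (z : E n) : Prop := (D f z).IsInvertible

/-- The normalized biholomorphic maps of the unit ball with `A`-spirallike image. -/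
def Spir {n : ℕ} (A : Op n) : Set (E n → E n) :=
  {f | DifferentiableOn ℂ f (B n) ∧ InjOn f (B n) ∧ (∀ z ∈ B n, Inv f z) ∧ f 0 = 0 ∧ D f 0 = Id n ∧
    ∀ z ∈ B n, ∀ t : ℝ, 0 ≤ t → ap (ex t A) (f z) ∈ f '' B n}

/-- The family `N_A`. -/
def Cara {n : ℕ} (A : Op n) : Set (E n → E n) :=
  {h | DifferentiableOn ℂ h (B n) ∧ h 0 = 0 ∧ D h 0 = A ∧ ∀ z ∈ B n, z ≠ 0 → 0 < re (h z) z}

/-- `f` is an extreme point of the class `G` of maps of the unit ball (maps which agree on the ball are the same). -/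
def IsExt {n : ℕ} (G : Set (E n → E n)) (f : E n → E n) : Prop :=
  f ∈ G ∧ ∀ g ∈ G, ∀ k ∈ G, ∀ t : ℝ, 0 < t → t < 1 →
    EqOn f (fun z => (t : ℂ) • g z + ((1 - t : ℝ) : ℂ) • k z) (B n) → EqOn g f (B n) ∧ EqOn k f (B n)

/-- `h_f = [D f]⁻¹ A f`. -/
noncomputable def hOf {n : ℕ} (A : Op n) (f : E n → E n) (z : E n) : E n :=
  ap (D f z).inverse (ap A (f z))

/-- A unimodular number close to `1`. -/
noncomputable def q : ℂ := ⟨√(1 - (1 / 100000) ^ 2), 1 / 100000⟩

/-- The factor of the coordinates `j ≥ 1`. -/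
noncomputable def V (s : ℝ) (x : ℂ) : ℂ :=
  Complex.exp ((q ^ 2 / 2 - 2 * (√2 : ℝ) * q) * Complex.log (1 - x) +
    q ^ 2 / 2 * Complex.log (1 + x)) * (1 + s * Complex.I * Complex.log (1 + x))

/-- The map `z ↦ (z₀ / (1 - z₀)², z₁ V(z₀), z₂ V(z₀), ..)` of `ℂⁿ`, `n = m + 2`. -/
noncomputable def F (m : ℕ) (s : ℝ) (z : E (m + 2)) : E (m + 2) :=
  WithLp.toLp 2 fun j => if j = 0 then z 0 / (1 - z 0) ^ 2 else z j * V s (z 0)

/-! ### Proof -/

private lemma goodq : GoodQ q := by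
  have h1 : (0 : ℝ) ≤ 1 - (1 / 100000) ^ 2 := by norm_num
  refine ⟨?_, rfl, ?_, ?_⟩
  · rw [Complex.norm_def, Complex.normSq_apply]
    have h2 : q.re * q.re + q.im * q.im = 1 := by
      show √(1 - (1 / 100000 : ℝ) ^ 2) * √(1 - (1 / 100000 : ℝ) ^ 2) + 1 / 100000 * (1 / 100000) = 1
      rw [Real.mul_self_sqrt h1]
      ring
    rw [h2, Real.sqrt_one]
  · show √(1 - (1 / 100000 : ℝ) ^ 2) ≤ 1
    apply Real.sqrt_le_one.2
    norm_num
  · show 1 - 1 / 10000000 ≤ √(1 - (1 / 100000 : ℝ) ^ 2)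
    apply Real.le_sqrt_of_sq_le
    norm_num

private lemma V_eq (s : ℝ) : V s = Vs q s := rfl

private noncomputable abbrev e0 (m : ℕ) : E (m + 2) := EuclideanSpace.single 0 1

private lemma F_eq (m : ℕ) (s : ℝ) (z : E (m + 2)) :
    F m s z = Vs q s (z 0) • z + (KK (z 0) - z 0 * Vs q s (z 0)) • e0 m := by
  ext j
  by_cases hj : j = 0
  · subst hj
    simp [F, KK]
    ring
  · simp [F, hj, V_eq]
    ring

/-- the isometric embedding of `ℂ²` -/
private noncomputable def J {m : ℕ} (v : E (m + 2)) : E2 →L[ℂ] E (m + 2) :=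
  (EuclideanSpace.proj (0 : Fin 2) : E2 →L[ℂ] ℂ).smulRight (e0 m) +
    (EuclideanSpace.proj (1 : Fin 2) : E2 →L[ℂ] ℂ).smulRight v

private lemma J_apply {m : ℕ} (v : E (m + 2)) (x : E2) : J v x = x 0 • e0 m + x 1 • v := rfl

private lemma J_zero {m : ℕ} {v : E (m + 2)} (hv : v 0 = 0) (x : E2) : J v x 0 = x 0 := by
  simp [J_apply, hv]

private lemma J_ne {m : ℕ} (v : E (m + 2)) (x : E2) {j : Fin (m + 2)} (hj : j ≠ 0) :
    J v x j = x 1 * v j := by
  simp [J_apply, hj]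

private lemma J_inner {m : ℕ} {v : E (m + 2)} (hv : v 0 = 0) (hn : ‖v‖ = 1) (x y : E2) :
    inner ℂ (J v x) (J v y) = inner ℂ x y := by
  have h1 : inner ℂ (e0 m) v = 0 := by
    simp [EuclideanSpace.inner_single_left, hv]
  have h2 : inner ℂ v (e0 m) = 0 := by
    rw [← inner_conj_symm, h1, map_zero]
  have h3 : inner ℂ (e0 m) (e0 m) = (1 : ℂ) := by
    simp
  have h4 : inner ℂ v v = (1 : ℂ) := by
    rw [inner_self_eq_norm_sq_to_K, hn]; simp
  rw [J_apply, J_apply, inner_E]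
  simp only [inner_add_left, inner_add_right, inner_smul_left, inner_smul_right, h1, h2, h3, h4]
  ring

private lemma J_norm {m : ℕ} {v : E (m + 2)} (hv : v 0 = 0) (hn : ‖v‖ = 1) (x : E2) :
    ‖J v x‖ = ‖x‖ := by
  have h := J_inner hv hn x x
  rw [inner_self_eq_norm_sq_to_K, inner_self_eq_norm_sq_to_K] at h
  have h2 : ‖J v x‖ ^ 2 = ‖x‖ ^ 2 := by exact_mod_cast h
  exact (sq_eq_sq₀ (norm_nonneg _) (norm_nonneg _)).1 h2

private lemma J_mem {m : ℕ} {v : E (m + 2)} (hv : v 0 = 0) (hn : ‖v‖ = 1) {x : E2} :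
    J v x ∈ ball (0 : E (m + 2)) 1 ↔ x ∈ ball (0 : E2) 1 := by
  rw [mem_ball_zero_iff, mem_ball_zero_iff, J_norm hv hn]

/-- every point is in the image of some `J v` -/
private lemma exists_J {m : ℕ} (z : E (m + 2)) : ∃ v : E (m + 2), v 0 = 0 ∧ ‖v‖ = 1 ∧
    ∃ x : E2, J v x = z := by
  by_cases h : z - z 0 • e0 m = 0
  · refine ⟨EuclideanSpace.single 1 1, by simp, by simp, P.symm (z 0, 0), ?_⟩
    rw [J_apply, P_symm_zero, P_symm_one]
    simp only [zero_smul, add_zero]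
    exact (sub_eq_zero.1 h).symm
  · set u := z - z 0 • e0 m with hu
    have hn : (‖u‖ : ℂ) ≠ 0 := by
      exact_mod_cast (norm_ne_zero_iff.2 h)
    have hu0 : u 0 = 0 := by simp [hu]
    refine ⟨(‖u‖ : ℂ)⁻¹ • u, by simp [hu0], ?_, P.symm (z 0, ‖u‖), ?_⟩
    · rw [norm_smul, norm_inv, Complex.norm_real, norm_norm, inv_mul_cancel₀]
      exact norm_ne_zero_iff.2 h
    · rw [J_apply, P_symm_zero, P_symm_one, smul_smul]
      simp only
      rw [mul_inv_cancel₀ hn, one_smul, hu]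
      abel

private lemma F_J {m : ℕ} {v : E (m + 2)} (hv : v 0 = 0) (s : ℝ) {x : E2}
    (hx : x ∈ ball (0 : E2) 1) : F m s (J v x) = J v (ff q s x) := by
  rw [F_eq, ff_apply q s hx, J_zero hv, J_apply, J_apply, P_symm_zero, P_symm_one]
  simp only [smul_add, smul_smul, sub_smul]
  have h1 : x 1 * Vs q s (x 0) = Vs q s (x 0) * x 1 := mul_comm _ _
  have h2 : Vs q s (x 0) * x 0 = x 0 * Vs q s (x 0) := mul_comm _ _
  rw [h1, h2]
  abel

private lemma z0_mem {m : ℕ} {z : E (m + 2)} (hz : z ∈ ball (0 : E (m + 2)) 1) :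
    z 0 ∈ ball (0 : ℂ) 1 := by
  rw [mem_ball_zero_iff] at hz ⊢
  exact lt_of_le_of_lt (PiLp.norm_apply_le z 0) hz

/-- the derivative -/
private noncomputable def DF (m : ℕ) (s : ℝ) (z : E (m + 2)) : E (m + 2) →L[ℂ] E (m + 2) :=
  Vs q s (z 0) • ContinuousLinearMap.id ℂ (E (m + 2)) +
    (Vs' q s (z 0) • (EuclideanSpace.proj (0 : Fin (m + 2)) : E (m + 2) →L[ℂ] ℂ)).smulRight z +
    ((KK' (z 0) - (Vs q s (z 0) + z 0 * Vs' q s (z 0))) •
      (EuclideanSpace.proj (0 : Fin (m + 2)) : E (m + 2) →L[ℂ] ℂ)).smulRight (e0 m)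

private lemma F_fderiv (m : ℕ) (s : ℝ) {z : E (m + 2)} (hz : z ∈ ball (0 : E (m + 2)) 1) :
    HasFDerivAt (F m s) (DF m s z) z := by
  have h0 := z0_mem hz
  have hp : HasFDerivAt (fun z : E (m + 2) => z 0)
      (EuclideanSpace.proj (0 : Fin (m + 2)) : E (m + 2) →L[ℂ] ℂ) z :=
    (EuclideanSpace.proj (0 : Fin (m + 2)) : E (m + 2) →L[ℂ] ℂ).hasFDerivAt
  have hV : HasFDerivAt (fun z : E (m + 2) => Vs q s (z 0))
      (Vs' q s (z 0) • (EuclideanSpace.proj (0 : Fin (m + 2)) : E (m + 2) →L[ℂ] ℂ)) z :=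
    HasDerivAt.comp_hasFDerivAt z (Vs_deriv q s h0) hp
  have hK : HasFDerivAt (fun z : E (m + 2) => KK (z 0))
      (KK' (z 0) • (EuclideanSpace.proj (0 : Fin (m + 2)) : E (m + 2) →L[ℂ] ℂ)) z :=
    HasDerivAt.comp_hasFDerivAt z (KK_deriv h0) hp
  have h1 := hV.smul (hasFDerivAt_id z)
  have h2 := (hK.sub (hp.mul hV)).smul_const (e0 m)
  have h3 := h1.add h2
  have h4 : F m s = fun z => Vs q s (z 0) • z + (KK (z 0) - z 0 * Vs q s (z 0)) • e0 m :=
    funext (F_eq m s)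
  rw [h4]
  refine h3.congr_fderiv ?_
  ext v j
  simp [DF]
  ring_nf

private lemma DF_apply (m : ℕ) (s : ℝ) (z v : E (m + 2)) :
    DF m s z v = Vs q s (z 0) • v + (Vs' q s (z 0) * v 0) • z +
      ((KK' (z 0) - (Vs q s (z 0) + z 0 * Vs' q s (z 0))) * v 0) • e0 m := rfl

private lemma DF_inv {m : ℕ} {s : ℝ} (hs : Adm s) {z : E (m + 2)}
    (hz : z ∈ ball (0 : E (m + 2)) 1) : (DF m s z).IsInvertible := by
  have h0 := z0_mem hz
  have hV := Vs_ne q hs (z 0)
  have hK := KK'_ne h0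
  have hinj : Function.Injective (DF m s z).toLinearMap := by
    rw [← LinearMap.ker_eq_bot, LinearMap.ker_eq_bot']
    intro v hv
    have hv' : Vs q s (z 0) • v + (Vs' q s (z 0) * v 0) • z +
      ((KK' (z 0) - (Vs q s (z 0) + z 0 * Vs' q s (z 0))) * v 0) • e0 m = 0 := hv
    have h2 := congrArg (fun w : E (m + 2) => w 0) hv'
    simp at h2
    have h3 : KK' (z 0) * v 0 = 0 := by linear_combination h2
    have h4 : v 0 = 0 := by
      rcases mul_eq_zero.1 h3 with h | h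
      · exact absurd h hK
      · exact h
    rw [h4] at hv'
    simp only [mul_zero, zero_smul, add_zero] at hv'
    exact (smul_eq_zero.1 hv').resolve_left hV
  refine ⟨(LinearEquiv.ofInjectiveEndo (DF m s z).toLinearMap hinj).toContinuousLinearEquiv, ?_⟩
  ext v
  rfl

private lemma adm_of {s : ℝ} (h : s = 0 ∨ s = 1 / 10000 ∨ s = -(1 / 10000)) : Adm s := by
  rcases h with h | h | h
  · exact Or.inl h
  · right; rw [h]
  · right; rw [h]; ring

private lemma exp_one {n : ℕ} (t : ℝ) (y : E n) :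
    NormedSpace.exp (-(t : ℂ) • (1 : E n →L[ℂ] E n)) y = ((Real.exp (-t) : ℝ) : ℂ) • y := by
  have h := NormedSpace.algebraMap_exp_comm (𝕂 := ℂ) (𝔸 := E n →L[ℂ] E n) (-(t : ℂ))
  rw [Algebra.algebraMap_eq_smul_one, Algebra.algebraMap_eq_smul_one] at h
  rw [← h, ← Complex.exp_eq_exp_ℂ]
  push_cast
  rfl

private lemma F_mem {m : ℕ} {s : ℝ} (hs : Adm s) : F m s ∈ Spir (1 : E (m + 2) →L[ℂ] E (m + 2)) := by
  refine ⟨?_, ?_, ?_, ?_, ?_, ?_⟩
  · intro z hz
    exact (F_fderiv m s hz).differentiableAt.differentiableWithinAt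
  · intro z hz w hw h
    have h1 := congrArg (fun w : E (m + 2) => w 0) h
    simp only [F, if_true] at h1
    have h2 := KK_inj (z0_mem hz) (z0_mem hw) h1
    ext j
    by_cases hj : j = 0
    · rw [hj]; exact h2
    · have h3 := congrArg (fun w : E (m + 2) => w j) h
      simp only [F, hj, if_false, V_eq] at h3
      rw [h2] at h3
      exact mul_right_cancel₀ (Vs_ne q hs (w 0)) h3
  · intro z hz
    show (fderiv ℂ (F m s) z).IsInvertible
    rw [(F_fderiv m s hz).fderiv]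
    exact DF_inv hs hz
  · rw [F_eq]
    simp [KK]
  · have hz : (0 : E (m + 2)) ∈ ball (0 : E (m + 2)) 1 := by simp
    show fderiv ℂ (F m s) 0 = (1 : E (m + 2) →L[ℂ] E (m + 2))
    rw [(F_fderiv m s hz).fderiv]
    ext v j
    rw [DF_apply]
    simp [KK', Vs, V0, WW]
  · intro z hz t ht
    obtain ⟨v, hv0, hvn, x, rfl⟩ := exists_J z
    have hx := (J_mem hv0 hvn).1 hz
    show NormedSpace.exp (-(t : ℂ) • (1 : E (m + 2) →L[ℂ] E (m + 2))) (F m s (J v x)) ∈
      F m s '' ball 0 1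
    rw [exp_one, F_J hv0 s hx]
    obtain ⟨w, hw, h⟩ := Pool.Agent.Helper52.OWNStar.ff_star goodq hs hx (Real.exp_pos (-t))
      (Real.exp_le_one_iff.2 (by linarith))
    refine ⟨J v w, (J_mem hv0 hvn).2 hw, ?_⟩
    rw [F_J hv0 s hw, h, map_smul]

private lemma F_mid (m : ℕ) (s : ℝ) (z : E (m + 2)) :
    F m 0 z = (1 / 2 : ℂ) • F m s z + (1 / 2 : ℂ) • F m (-s) z := by
  ext j
  by_cases hj : j = 0
  · simp [F, hj]
    ring
  · simp [F, hj, V]
    ring

private lemma F_ne (m : ℕ) {s : ℝ} (hs : s ≠ 0) :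
    ∃ z ∈ ball (0 : E (m + 2)) 1, F m s z ≠ F m (-s) z := by
  have h1 : ∃ x ∈ ball (0 : E2) 1, ff q s x ≠ ff q 0 x := by
    by_contra hcon
    push Not at hcon
    apply ff_ne q hs
    funext x
    by_cases hx : x ∈ ball (0 : E2) 1
    · exact hcon x hx
    · rw [ff_out q s hx, ff_out q 0 hx]
  obtain ⟨x, hx, hne⟩ := h1
  have hv0 : (EuclideanSpace.single 1 1 : E (m + 2)) 0 = 0 := by simp
  have hvn : ‖(EuclideanSpace.single 1 1 : E (m + 2))‖ = 1 := by simp
  refine ⟨J (EuclideanSpace.single 1 1) x, (J_mem hv0 hvn).2 hx, ?_⟩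
  intro h
  have h2 := F_mid m s (J (EuclideanSpace.single 1 1) x)
  rw [← h, ← add_smul, show (1 / 2 : ℂ) + 1 / 2 = 1 by norm_num, one_smul, F_J hv0 0 hx,
    F_J hv0 s hx] at h2
  apply hne
  rw [← sub_eq_zero, ← map_sub, ← norm_eq_zero, J_norm hv0 hvn, norm_eq_zero, sub_eq_zero] at h2
  exact h2.symm

/-- `h` in coordinates -/
private noncomputable def hm (m : ℕ) (z : E (m + 2)) : E (m + 2) :=
  cc q (z 0) • z + (z 0 * pp (z 0) - z 0 * cc q (z 0)) • e0 m

private lemma hm_J {m : ℕ} {v : E (m + 2)} (hv : v 0 = 0) {x : E2}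
    (hx : x ∈ ball (0 : E2) 1) : hm m (J v x) = J v (hh q x) := by
  rw [hm, hh_apply q hx, J_zero hv, J_apply, J_apply, P_symm_zero, P_symm_one]
  simp only [smul_add, smul_smul, sub_smul]
  have h1 : x 1 * cc q (x 0) = cc q (x 0) * x 1 := mul_comm _ _
  have h2 : cc q (x 0) * x 0 = x 0 * cc q (x 0) := mul_comm _ _
  rw [h1, h2]
  abel

private lemma hOf_eq {m : ℕ} {z : E (m + 2)} (hz : z ∈ ball (0 : E (m + 2)) 1) :
    hOf 1 (F m 0) z = hm m z := by
  have h0 := z0_mem hz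
  show (fderiv ℂ (F m 0) z).inverse (F m 0 z) = hm m z
  rw [(F_fderiv m 0 hz).fderiv, (DF_inv adm_zero hz).inverse_apply_eq]
  show F m 0 z = _
  have h1 := KK_div h0
  have h2 := c_formula q adm_zero h0
  rw [cs_zero, h1] at h2
  have hV := Vs_ne q adm_zero (z 0)
  have hK := KK'_ne h0
  have h3 : Vs q 0 (z 0) * cc q (z 0) = Vs q 0 (z 0) - Vs' q 0 (z 0) * (z 0 * pp (z 0)) := by
    rw [← h2]
    field_simp
  have h4 : KK (z 0) = KK' (z 0) * (z 0 * pp (z 0)) := by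
    rw [← h1]
    field_simp
  rw [DF_apply, F_eq]
  ext j
  have h5 : hm m z 0 = z 0 * pp (z 0) := by
    simp [hm]
    ring
  by_cases hj : j = 0
  · subst hj
    simp only [PiLp.add_apply, PiLp.smul_apply, smul_eq_mul, h5]
    simp
    linear_combination h4
  · simp only [PiLp.add_apply, PiLp.smul_apply, smul_eq_mul, h5]
    simp [hm, hj]
    linear_combination (-(z j)) * h3

private lemma hm_diff (m : ℕ) : DifferentiableOn ℂ (hm m) (ball 0 1) := by
  intro z hz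
  have h0 := z0_mem hz
  have hp : DifferentiableAt ℂ (fun z : E (m + 2) => z 0) z :=
    (EuclideanSpace.proj (0 : Fin (m + 2)) : E (m + 2) →L[ℂ] ℂ).differentiableAt
  have hc : DifferentiableAt ℂ (fun z : E (m + 2) => cc q (z 0)) z :=
    DifferentiableAt.comp z ((cc_diff q).differentiableAt (isOpen_ball.mem_nhds h0)) hp
  have hpp : DifferentiableAt ℂ (fun z : E (m + 2) => pp (z 0)) z :=
    DifferentiableAt.comp z (pp_diff.differentiableAt (isOpen_ball.mem_nhds h0)) hp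
  apply DifferentiableAt.differentiableWithinAt
  exact (hc.smul differentiableAt_id).add (((hp.mul hpp).sub (hp.mul hc)).smul_const _)

private lemma hm_fderiv (m : ℕ) : HasFDerivAt (hm m) (1 : E (m + 2) →L[ℂ] E (m + 2)) 0 := by
  have h0 : (0 : ℂ) ∈ ball (0 : ℂ) 1 := by simp
  have hp : HasFDerivAt (fun z : E (m + 2) => z 0)
      (EuclideanSpace.proj (0 : Fin (m + 2)) : E (m + 2) →L[ℂ] ℂ) 0 :=
    (EuclideanSpace.proj (0 : Fin (m + 2)) : E (m + 2) →L[ℂ] ℂ).hasFDerivAt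
  have hz00 : (0 : E (m + 2)) 0 = 0 := rfl
  have hcd : HasDerivAt (cc q) (deriv (cc q) 0) ((0 : E (m + 2)) 0) := by
    rw [hz00]
    exact ((cc_diff q).differentiableAt (isOpen_ball.mem_nhds h0)).hasDerivAt
  have hppd : HasDerivAt pp (deriv pp 0) ((0 : E (m + 2)) 0) := by
    rw [hz00]
    exact (pp_diff.differentiableAt (isOpen_ball.mem_nhds h0)).hasDerivAt
  have hc : HasFDerivAt (fun z : E (m + 2) => cc q (z 0))
      (deriv (cc q) 0 • (EuclideanSpace.proj (0 : Fin (m + 2)) : E (m + 2) →L[ℂ] ℂ)) 0 :=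
    HasDerivAt.comp_hasFDerivAt (h₂ := cc q) (f := fun z : E (m + 2) => z 0) (0 : E (m + 2)) hcd hp
  have hpp : HasFDerivAt (fun z : E (m + 2) => pp (z 0))
      (deriv pp 0 • (EuclideanSpace.proj (0 : Fin (m + 2)) : E (m + 2) →L[ℂ] ℂ)) 0 :=
    HasDerivAt.comp_hasFDerivAt (h₂ := pp) (f := fun z : E (m + 2) => z 0) (0 : E (m + 2)) hppd hp
  have h1 := hc.smul (hasFDerivAt_id (0 : E (m + 2)))
  have h2 := ((hp.mul hpp).sub (hp.mul hc)).smul_const (e0 m)
  have h3 := h1.add h2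
  have hc0 : cc q 0 = 1 := by simp [cc]
  have hp0 : pp 0 = 1 := by simp [pp]
  refine h3.congr_fderiv ?_
  ext v j
  simp [hc0, hp0]

private lemma hm_pos {m : ℕ} {z : E (m + 2)} (hz : z ∈ ball (0 : E (m + 2)) 1) (hne : z ≠ 0) :
    0 < (inner ℂ z (hm m z)).re := by
  obtain ⟨v, hv0, hvn, x, rfl⟩ := exists_J z
  have hx := (J_mem hv0 hvn).1 hz
  rw [hm_J hv0 hx, J_inner hv0 hvn]
  apply (hh_mem goodq).2.2.2.1 x hx
  rintro rfl
  exact hne (map_zero _)

private lemma hOf_mem (m : ℕ) : hOf 1 (F m 0) ∈ Cara (1 : E (m + 2) →L[ℂ] E (m + 2)) := by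
  have h0 : (0 : E (m + 2)) ∈ ball (0 : E (m + 2)) 1 := by simp
  refine ⟨?_, ?_, ?_, ?_⟩
  · exact (hm_diff m).congr (fun z hz => hOf_eq hz)
  · rw [hOf_eq h0]
    simp [hm]
  · have h1 : HasFDerivAt (hOf 1 (F m 0)) (1 : E (m + 2) →L[ℂ] E (m + 2)) 0 := by
      apply (hm_fderiv m).congr_of_eventuallyEq
      filter_upwards [isOpen_ball.mem_nhds h0] with w hw
      exact hOf_eq hw
    exact h1.fderiv
  · intro z hz hne
    rw [hOf_eq hz]
    exact hm_pos hz hne

/-- a holomorphic map orthogonal to the identity is zero -/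
private lemma zero_of_inner {n : ℕ} {g : E n → E n} (hg : DifferentiableOn ℂ g (ball 0 1))
    (h : ∀ z ∈ ball (0 : E n) 1, inner ℂ z (g z) = 0) : ∀ z ∈ ball (0 : E n) 1, g z = 0 := by
  intro z hz
  have hgz : DifferentiableAt ℂ g z := hg.differentiableAt (isOpen_ball.mem_nhds hz)
  suffices hw : ∀ w, inner ℂ w (g z) = 0 by
    exact inner_self_eq_zero.1 (hw (g z))
  intro w
  have hl : HasDerivAt (fun c : ℂ => z + c • w) w 0 := by
    have := ((hasDerivAt_id (0 : ℂ)).smul_const w).const_add z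
    simpa using this
  have hz0 : z = z + (0 : ℂ) • w := by simp
  have hd : ∀ u : E n, ∃ a : ℂ, HasDerivAt (fun c : ℂ => inner ℂ u (g (z + c • w))) a 0 := by
    intro u
    have h1 : HasFDerivAt g (fderiv ℂ g z) (z + (0 : ℂ) • w) := by
      rw [← hz0]; exact hgz.hasFDerivAt
    have h2 : HasDerivAt (fun c : ℂ => g (z + c • w)) (fderiv ℂ g z w) 0 :=
      HasFDerivAt.comp_hasDerivAt (0 : ℂ) h1 hl
    exact ⟨_, HasFDerivAt.comp_hasDerivAt (0 : ℂ) ((innerSL ℂ u).hasFDerivAt) h2⟩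
  obtain ⟨a, ha⟩ := hd z
  obtain ⟨b, hb⟩ := hd w
  set A : ℂ → ℂ := fun c => inner ℂ z (g (z + c • w)) with hA
  set B : ℂ → ℂ := fun c => inner ℂ w (g (z + c • w)) with hB
  have hB0 : B 0 = inner ℂ w (g z) := by rw [hB]; simp
  have hrel : ∀ᶠ c : ℂ in nhds 0, A c = - (starRingEnd ℂ c * B c) := by
    have hc : ContinuousAt (fun c : ℂ => z + c • w) 0 := hl.continuousAt
    have h3 : ball (0 : E n) 1 ∈ nhds ((fun c : ℂ => z + c • w) 0) := by
      simp only [zero_smul, add_zero]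
      exact isOpen_ball.mem_nhds hz
    filter_upwards [hc.preimage_mem_nhds h3] with c hc
    have h4 := h _ hc
    rw [inner_add_left, inner_smul_left] at h4
    exact eq_neg_of_add_eq_zero_left h4
  -- along the real axis
  have r1 : HasDerivAt (fun t : ℝ => A (t : ℂ)) a 0 := by
    have h5 : HasDerivAt A a ((0 : ℝ) : ℂ) := by simpa using ha
    have h7 : HasDerivAt (fun t : ℝ => (t : ℂ)) 1 0 := Complex.ofRealCLM.hasDerivAt
    have h8 : HasDerivAt (fun t : ℝ => A (t : ℂ)) (a * 1) 0 := HasDerivAt.comp (0 : ℝ) h5 h7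
    rwa [mul_one] at h8
  have r2 : HasDerivAt (fun t : ℝ => -((t : ℂ) * B t)) (-(B 0)) 0 := by
    have h5 : HasDerivAt B b ((0 : ℝ) : ℂ) := by simpa using hb
    have h7 : HasDerivAt (fun t : ℝ => (t : ℂ)) 1 0 := Complex.ofRealCLM.hasDerivAt
    have h6 : HasDerivAt (fun t : ℝ => B (t : ℂ)) (b * 1) 0 := HasDerivAt.comp (0 : ℝ) h5 h7
    have h8 : HasDerivAt (fun t : ℝ => -((t : ℂ) * B t)) _ 0 := (h7.mul h6).neg
    refine h8.congr_deriv ?_
    simp
  have r3 : (fun t : ℝ => A (t : ℂ)) =ᶠ[nhds 0] fun t : ℝ => -((t : ℂ) * B t) := by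
    have hc : Filter.Tendsto (fun t : ℝ => (t : ℂ)) (nhds 0) (nhds 0) := by
      have := Complex.continuous_ofReal.tendsto 0
      simpa using this
    filter_upwards [hc.eventually hrel] with t ht
    rw [ht, Complex.conj_ofReal]
  have e1 : a = -(B 0) := (r1.congr_of_eventuallyEq r3.symm).unique r2
  -- along the imaginary axis
  have s1 : HasDerivAt (fun t : ℝ => A ((t : ℂ) * Complex.I)) (a * Complex.I) 0 := by
    have h5 : HasDerivAt A a (((0 : ℝ) : ℂ) * Complex.I) := by simpa using ha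
    have h7 : HasDerivAt (fun t : ℝ => (t : ℂ) * Complex.I) (1 * Complex.I) 0 :=
      (Complex.ofRealCLM.hasDerivAt).mul_const _
    have h8 : HasDerivAt (fun t : ℝ => A ((t : ℂ) * Complex.I)) (a * (1 * Complex.I)) 0 :=
      HasDerivAt.comp (h₂ := A) (h := fun t : ℝ => (t : ℂ) * Complex.I) (0 : ℝ) h5 h7
    rwa [one_mul] at h8
  have s2 : HasDerivAt (fun t : ℝ => (t : ℂ) * Complex.I * B ((t : ℂ) * Complex.I))
      (Complex.I * B 0) 0 := by
    have h5 : HasDerivAt B b (((0 : ℝ) : ℂ) * Complex.I) := by simpa using hb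
    have h7 : HasDerivAt (fun t : ℝ => (t : ℂ) * Complex.I) (1 * Complex.I) 0 :=
      (Complex.ofRealCLM.hasDerivAt).mul_const _
    have h8 : HasDerivAt (fun t : ℝ => B ((t : ℂ) * Complex.I)) (b * (1 * Complex.I)) 0 :=
      HasDerivAt.comp (h₂ := B) (h := fun t : ℝ => (t : ℂ) * Complex.I) (0 : ℝ) h5 h7
    have h9 : HasDerivAt (fun t : ℝ => (t : ℂ) * Complex.I * B ((t : ℂ) * Complex.I)) _ 0 :=
      h7.mul h8
    refine h9.congr_deriv ?_
    simp
  have s3 : (fun t : ℝ => A ((t : ℂ) * Complex.I)) =ᶠ[nhds 0]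
      fun t : ℝ => (t : ℂ) * Complex.I * B ((t : ℂ) * Complex.I) := by
    have hc : Filter.Tendsto (fun t : ℝ => (t : ℂ) * Complex.I) (nhds 0) (nhds 0) := by
      have : Continuous (fun t : ℝ => (t : ℂ) * Complex.I) := by fun_prop
      have := this.tendsto 0
      simpa using this
    filter_upwards [hc.eventually hrel] with t ht
    rw [ht, map_mul, Complex.conj_ofReal, Complex.conj_I]
    ring
  have e2 : a * Complex.I = Complex.I * B 0 := (s1.congr_of_eventuallyEq s3.symm).unique s2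
  have e3 : a = B 0 := by
    have := mul_right_cancel₀ Complex.I_ne_zero (e2.trans (mul_comm _ _))
    exact this
  rw [← hB0]
  have e4 : B 0 = -(B 0) := e3.symm.trans e1
  exact self_eq_neg.1 e4

/-- the compression of a member of `N_I` to a plane -/
private noncomputable def comp {m : ℕ} (v : E (m + 2)) (x : E (m + 2) → E (m + 2)) : E2 → E2 :=
  (ball (0 : E2) 1).indicator fun z => (J v).adjoint (x (J v z))

private lemma adj_J {m : ℕ} {v : E (m + 2)} (hv : v 0 = 0) (hn : ‖v‖ = 1) (y : E2) :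
    (J v).adjoint (J v y) = y := by
  apply ext_inner_left ℂ
  intro x
  rw [ContinuousLinearMap.adjoint_inner_right, J_inner hv hn]

private lemma comp_mem {m : ℕ} {v : E (m + 2)} (hv : v 0 = 0) (hn : ‖v‖ = 1)
    {x : E (m + 2) → E (m + 2)} (hx : x ∈ Cara (1 : E (m + 2) →L[ℂ] E (m + 2))) :
    comp v x ∈ NN := by
  have h0 : (0 : E2) ∈ ball (0 : E2) 1 := by simp
  have hap : ∀ z ∈ ball (0 : E2) 1, comp v x z = (J v).adjoint (x (J v z)) := by
    intro z hz
    unfold comp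
    rw [indicator_of_mem hz]
  refine ⟨?_, ?_, ?_, ?_, ?_⟩
  · have : DifferentiableOn ℂ (fun z => (J v).adjoint (x (J v z))) (ball (0 : E2) 1) := by
      apply (J v).adjoint.differentiable.comp_differentiableOn
      apply hx.1.comp (J v).differentiable.differentiableOn
      intro z hz
      exact (J_mem hv hn).2 hz
    exact this.congr hap
  · rw [hap 0 h0, map_zero, hx.2.1, map_zero]
  · have e2 : DifferentiableAt ℂ x 0 :=
      hx.1.differentiableAt (isOpen_ball.mem_nhds (by simp))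
    have e3 : HasFDerivAt x (1 : E (m + 2) →L[ℂ] E (m + 2)) (J v 0) := by
      rw [map_zero, ← hx.2.2.1]; exact e2.hasFDerivAt
    have e4 := HasFDerivAt.comp (0 : E2) e3 (J v).hasFDerivAt
    have e5 := HasFDerivAt.comp (0 : E2) (J v).adjoint.hasFDerivAt e4
    have e6 : HasFDerivAt (comp v x) (ContinuousLinearMap.id ℂ E2) 0 := by
      have e7 : HasFDerivAt (fun z => (J v).adjoint (x (J v z))) (ContinuousLinearMap.id ℂ E2) 0 := by
        refine e5.congr_fderiv ?_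
        ext1 y
        exact adj_J hv hn y
      apply e7.congr_of_eventuallyEq
      filter_upwards [isOpen_ball.mem_nhds h0] with w hw
      exact hap w hw
    exact e6.fderiv
  · intro z hz hne
    rw [hap z hz, ContinuousLinearMap.adjoint_inner_right]
    apply hx.2.2.2 _ ((J_mem hv hn).2 hz)
    intro h
    apply hne
    rw [← norm_eq_zero, ← J_norm hv hn, h, norm_zero]
  · intro z hz
    unfold comp
    rw [indicator_of_notMem hz]

private lemma ext_aux {m : ℕ} {g k : E (m + 2) → E (m + 2)}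
    (hg : g ∈ Cara (1 : E (m + 2) →L[ℂ] E (m + 2)))
    (hk : k ∈ Cara (1 : E (m + 2) →L[ℂ] E (m + 2))) {t : ℝ} (h0 : 0 < t) (h1 : t < 1)
    (h : EqOn (hOf 1 (F m 0)) (fun z => (t : ℂ) • g z + ((1 - t : ℝ) : ℂ) • k z) (ball 0 1)) :
    EqOn g (hOf 1 (F m 0)) (ball 0 1) := by
  have hdiff : DifferentiableOn ℂ (fun z => g z - hm m z) (ball 0 1) := hg.1.sub (hm_diff m)
  have hz := zero_of_inner hdiff ?_
  · intro z hz'
    rw [hOf_eq hz']
    exact sub_eq_zero.1 (hz z hz')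
  intro z hz
  obtain ⟨v, hv0, hvn, x, rfl⟩ := exists_J z
  have hx := (J_mem hv0 hvn).1 hz
  have hext := hh_extreme goodq
  rw [mem_extremePoints_iff_left] at hext
  have h2 := hext.2 (comp v g) (comp_mem hv0 hvn hg) (comp v k) (comp_mem hv0 hvn hk)
    ⟨t, 1 - t, h0, by linarith, by ring, by
      funext y
      simp only [Pi.add_apply, Pi.smul_apply]
      by_cases hy : y ∈ ball (0 : E2) 1
      · have h3 := h ((J_mem hv0 hvn).2 hy)
        rw [hOf_eq ((J_mem hv0 hvn).2 hy), hm_J hv0 hy] at h3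
        have h4 := congrArg (J v).adjoint h3
        rw [adj_J hv0 hvn] at h4
        simp only [map_add, map_smul] at h4
        unfold comp
        rw [indicator_of_mem hy, indicator_of_mem hy, h4,
          RCLike.real_smul_eq_coe_smul (K := ℂ) t, RCLike.real_smul_eq_coe_smul (K := ℂ) (1 - t)]
        rfl
      · unfold comp
        rw [indicator_of_notMem hy, indicator_of_notMem hy, (hh_mem goodq).2.2.2.2 y hy]
        simp⟩
  have h3 : (J v).adjoint (g (J v x)) = hh q x := by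
    have := congrFun h2 x
    unfold comp at this
    rwa [indicator_of_mem hx] at this
  rw [inner_sub_right, ← ContinuousLinearMap.adjoint_inner_right (J v), h3, hm_J hv0 hx,
    J_inner hv0 hvn, sub_self]

private lemma h_ext (m : ℕ) : IsExt (Cara (1 : E (m + 2) →L[ℂ] E (m + 2))) (hOf 1 (F m 0)) := by
  refine ⟨hOf_mem m, ?_⟩
  intro g hg k hk t h0 h1 h
  refine ⟨ext_aux hg hk h0 h1 h, ?_⟩
  apply ext_aux hk hg (t := 1 - t) (by linarith) (by linarith)
  intro z hz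
  rw [h hz]
  have e1 : ((1 - (1 - t) : ℝ) : ℂ) = (t : ℂ) := by
    push_cast
    ring
  show (t : ℂ) • g z + ((1 - t : ℝ) : ℂ) • k z =
    ((1 - t : ℝ) : ℂ) • k z + ((1 - (1 - t) : ℝ) : ℂ) • g z
  rw [e1, add_comm ((t : ℂ) • g z)]

private lemma F_not_ext (m : ℕ) : ¬ IsExt (Spir (1 : E (m + 2) →L[ℂ] E (m + 2))) (F m 0) := by
  intro h
  obtain ⟨z, hz, hne⟩ := F_ne m (s := 1 / 10000) (by norm_num)
  have h1 := h.2 _ (F_mem adm_pos) _ (F_mem adm_neg) (1 / 2) (by norm_num) (by norm_num) (by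
    intro z hz
    have := F_mid m (1 / 10000) z
    simp only
    rw [this]
    norm_num)
  exact hne ((h1.1 hz).trans (h1.2 hz).symm)

private lemma kPlus_one (m : ℕ) : kPlus (1 : E (m + 2) →L[ℂ] E (m + 2)) = 1 := by
  unfold kPlus
  rw [spectrum.one_eq]
  simp

private lemma mMin_one (m : ℕ) : mMin (1 : E (m + 2) →L[ℂ] E (m + 2)) = 1 := by
  unfold mMin
  have h1 : (fun z : E (m + 2) => (inner ℂ z ((1 : E (m + 2) →L[ℂ] E (m + 2)) z)).re) ''
      sphere 0 1 = {1} := by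
    apply Set.Subset.antisymm
    · rintro y ⟨z, hz, rfl⟩
      rw [mem_sphere_zero_iff_norm] at hz
      rw [mem_singleton_iff]
      show (inner ℂ z z).re = 1
      rw [inner_self_eq_norm_sq_to_K, hz]
      norm_num
    · rintro y rfl
      refine ⟨e0 m, by simp, ?_⟩
      show (inner ℂ (e0 m) (e0 m)).re = 1
      rw [inner_self_eq_norm_sq_to_K]
      simp
  show sInf ((fun z : E (m + 2) => (inner ℂ z ((1 : E (m + 2) →L[ℂ] E (m + 2)) z)).re) ''
      sphere 0 1) = 1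
  rw [h1, csInf_singleton]

/-- **Q1 of MP_0bd3a7_an fails in every dimension `n = m + 2 ≥ 2`, with `A = I`.** -/
theorem result (m : ℕ) :
    kPlus (Id (m + 2)) < 2 * mMin (Id (m + 2)) ∧
    F m 0 ∈ Spir (Id (m + 2)) ∧ F m (1 / 10000) ∈ Spir (Id (m + 2)) ∧
    F m (-(1 / 10000)) ∈ Spir (Id (m + 2)) ∧
    (∀ z, F m 0 z = (1 / 2 : ℂ) • F m (1 / 10000) z + (1 / 2 : ℂ) • F m (-(1 / 10000)) z) ∧
    (∃ z ∈ B (m + 2), F m (1 / 10000) z ≠ F m (-(1 / 10000)) z) ∧
    ¬ IsExt (Spir (Id (m + 2))) (F m 0) ∧ IsExt (Cara (Id (m + 2))) (hOf (Id (m + 2)) (F m 0)) := by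
  refine ⟨?_, F_mem adm_zero, F_mem adm_pos, F_mem adm_neg, F_mid m _, F_ne m (by norm_num),
    F_not_ext m, h_ext m⟩
  have h1 : kPlus (Id (m + 2)) = 1 := kPlus_one m
  have h2 : mMin (Id (m + 2)) = 1 := mMin_one m
  rw [h1, h2]
  norm_num

end Pool.Agent.Results.MP_0bd3a7_an.EveryDimension
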